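import Pool.Agent.Y6.K.Stm

/-! Job EK-AVG of helper6: averaging for a finite group of modes rotated with a large speed. -/

set_option autoImplicit false

namespace Pool.Agent.Y43.EK.AVG

open Set

theorem skew_sum {ι : Type} [Fintype ι] (σ : ι → ι) (τ : ι → ℝ) (y : ι → ℝ)
    (hσ : ∀ j, σ (σ j) = j) (hτ : ∀ j, τ (σ j) = -τ j) : ∑ j, τ j * y j * y (σ j) = 0 := by
  have h1 : ∑ j, τ j * y j * y (σ j) = ∑ j, τ (σ j) * y (σ j) * y (σ (σ j)) :=
    (Equiv.sum_comp (⟨σ, σ, hσ, hσ⟩ : ι ≃ ι) (fun j => τ j * y j * y (σ j))).symm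
  have h2 : ∑ j, τ (σ j) * y (σ j) * y (σ (σ j)) = -∑ j, τ j * y j * y (σ j) := by
    rw [← Finset.sum_neg_distrib]
    apply Finset.sum_congr rfl
    intro j _
    rw [hσ, hτ]; ring
  linarith

theorem t_AVG : Pool.Agent.Y6.K.S_AVG := by
  intro b n hb
  set K : ℝ := (2 * b + 1) * n + (b * n + 1) ^ 2 with hK
  have hn : (0 : ℝ) ≤ n := Nat.cast_nonneg n
  have hK0 : 0 ≤ K := by positivity
  refine ⟨(n + 1) * Real.exp (60 * K) + 1, ?_, ?_⟩
  · have : 0 ≤ (n + 1) * Real.exp (60 * K) := by positivity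
    linarith
  intro ι _ σ τ S θ h η v H H' E hcard hσ hτ hτ2 hS hθ hθ60 hh hη hv hH hHb hH0 hE hv0
  set δ : ℝ := h / S + η with hδ
  have hSpos : 0 < S := by linarith
  have hhS : 0 ≤ h / S := by positivity
  have hδ0 : 0 ≤ δ := by positivity
  have hcard' : (Fintype.card ι : ℝ) ≤ n := by exact_mod_cast hcard
  have hτ1 : ∀ j, |τ j| ≤ 1 := by
    intro j
    rcases hτ2 j with h0 | h1
    · rw [h0, abs_zero]; exact zero_le_one
    · rw [← sq_abs] at h1
      nlinarith [abs_nonneg (τ j), sq_nonneg (|τ j| - 1)]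
  let y : ι → ℝ → ℝ := fun j t => v j t - τ j * H (σ j) t / S
  have hyd : ∀ j t, t ∈ Icc (0 : ℝ) θ → HasDerivWithinAt (y j)
      (S * τ j * y (σ j) t + (E j t - τ j * H' (σ j) t / S)) (Icc 0 θ) t := by
    intro j t ht
    have h1 := (hv j t ht).sub (((hH (σ j) t ht).const_mul (τ j)).div_const S)
    refine h1.congr_deriv ?_
    change S * τ j * v (σ j) t + H j t + E j t - τ j * H' (σ j) t / S =
      S * τ j * (v (σ j) t - τ (σ j) * H (σ (σ j)) t / S) + (E j t - τ j * H' (σ j) t / S)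
    rw [hσ, hτ]
    have h2 : τ j ^ 2 * H j t = H j t := by
      rcases hτ2 j with h0 | h1
      · rw [hH0 j h0 t ht]; ring
      · rw [h1, one_mul]
    have h3 : S * τ j * (-τ j * H j t / S) = -H j t := by
      have h5 : S * τ j * (-τ j * H j t / S) = -(τ j ^ 2 * H j t) := by
        field_simp
      rw [h5, h2]
    have h4 : S * τ j * (v (σ j) t - -τ j * H j t / S) =
        S * τ j * v (σ j) t - S * τ j * (-τ j * H j t / S) := by ring
    rw [h4, h3]; ring
  let Y : ℝ → ℝ := fun t => ∑ j, (y j t) ^ 2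
  have hYd : ∀ t ∈ Icc (0 : ℝ) θ, HasDerivWithinAt Y
      (∑ j, 2 * y j t * (S * τ j * y (σ j) t + (E j t - τ j * H' (σ j) t / S))) (Icc 0 θ) t := by
    intro t ht
    have h1 : ∀ j ∈ (Finset.univ : Finset ι), HasDerivWithinAt (fun t => (y j t) ^ 2)
        (2 * y j t * (S * τ j * y (σ j) t + (E j t - τ j * H' (σ j) t / S))) (Icc 0 θ) t := by
      intro j _
      have := (hyd j t ht).pow 2
      refine this.congr_deriv ?_
      simp
    exact HasDerivWithinAt.fun_sum h1
  have hvy : ∀ j t, t ∈ Icc (0 : ℝ) θ → |v j t| ≤ |y j t| + h / S := by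
    intro j t ht
    have h1 : v j t = y j t + τ j * H (σ j) t / S := by
      change v j t = (v j t - τ j * H (σ j) t / S) + τ j * H (σ j) t / S
      ring
    have h2 : |τ j * H (σ j) t / S| ≤ h / S := by
      rw [abs_div, abs_of_pos hSpos, abs_mul]
      apply div_le_div_of_nonneg_right _ hSpos.le
      calc |τ j| * |H (σ j) t| ≤ 1 * h :=
            mul_le_mul (hτ1 j) (hHb (σ j) t ht).1 (abs_nonneg _) zero_le_one
        _ = h := one_mul h
    calc |v j t| = |y j t + τ j * H (σ j) t / S| := by rw [← h1]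
      _ ≤ |y j t| + |τ j * H (σ j) t / S| := abs_add_le _ _
      _ ≤ _ := by linarith
  have hYb : ∀ t ∈ Icc (0 : ℝ) θ,
      ∑ j, 2 * y j t * (S * τ j * y (σ j) t + (E j t - τ j * H' (σ j) t / S)) ≤
        K * (Y t + δ ^ 2) := by
    intro t ht
    set s : ℝ := ∑ j, |y j t| with hs
    have hs0 : 0 ≤ s := Finset.sum_nonneg (fun j _ => abs_nonneg _)
    have hY0 : 0 ≤ Y t := Finset.sum_nonneg (fun j _ => sq_nonneg _)
    have hsY : s ^ 2 ≤ n * Y t := by
      have h1 : s ^ 2 ≤ (Fintype.card ι : ℝ) * ∑ j, |y j t| ^ 2 := by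
        have := sq_sum_le_card_mul_sum_sq (s := (Finset.univ : Finset ι)) (f := fun j => |y j t|)
        simpa using this
      have h2 : ∑ j, |y j t| ^ 2 = Y t := by
        change _ = ∑ j, (y j t) ^ 2
        simp
      rw [h2] at h1
      exact h1.trans (mul_le_mul_of_nonneg_right hcard' hY0)
    have hsv : ∑ i, |v i t| ≤ s + n * (h / S) := by
      calc ∑ i, |v i t| ≤ ∑ i, (|y i t| + h / S) := Finset.sum_le_sum (fun i _ => hvy i t ht)
        _ = s + (Fintype.card ι : ℝ) * (h / S) := by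
            rw [Finset.sum_add_distrib, Finset.sum_const, nsmul_eq_mul, Finset.card_univ]
        _ ≤ _ := by
            have := mul_le_mul_of_nonneg_right hcard' hhS
            linarith
    have hrem : ∀ j, |E j t - τ j * H' (σ j) t / S| ≤ b * s + (b * n + 1) * δ := by
      intro j
      have h1 := hE j t ht
      have h2 : |τ j * H' (σ j) t / S| ≤ h / S := by
        rw [abs_div, abs_of_pos hSpos, abs_mul]
        apply div_le_div_of_nonneg_right _ hSpos.le
        calc |τ j| * |H' (σ j) t| ≤ 1 * h :=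
              mul_le_mul (hτ1 j) (hHb (σ j) t ht).2 (abs_nonneg _) zero_le_one
          _ = h := one_mul h
      have h3 := abs_sub (E j t) (τ j * H' (σ j) t / S)
      have h4 : b * ∑ i, |v i t| ≤ b * (s + n * (h / S)) := mul_le_mul_of_nonneg_left hsv hb
      have h5 : 0 ≤ b * n * η := by positivity
      have h6 : (b * n + 1) * δ = b * n * (h / S) + h / S + b * n * η + η := by rw [hδ]; ring
      rw [h6]
      linarith
    have hsplit : ∑ j, 2 * y j t * (S * τ j * y (σ j) t + (E j t - τ j * H' (σ j) t / S)) =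
        2 * S * (∑ j, τ j * y j t * y (σ j) t) +
          ∑ j, 2 * y j t * (E j t - τ j * H' (σ j) t / S) := by
      rw [Finset.mul_sum, ← Finset.sum_add_distrib]
      apply Finset.sum_congr rfl
      intro j _; ring
    rw [hsplit, skew_sum σ τ (fun j => y j t) hσ hτ, mul_zero, zero_add]
    have h7 : ∑ j, 2 * y j t * (E j t - τ j * H' (σ j) t / S) ≤
        ∑ j, 2 * |y j t| * (b * s + (b * n + 1) * δ) := by
      apply Finset.sum_le_sum
      intro j _
      calc 2 * y j t * (E j t - τ j * H' (σ j) t / S)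
          ≤ |2 * y j t * (E j t - τ j * H' (σ j) t / S)| := le_abs_self _
        _ = 2 * |y j t| * |E j t - τ j * H' (σ j) t / S| := by
            rw [abs_mul, abs_mul, abs_two]
        _ ≤ _ := mul_le_mul_of_nonneg_left (hrem j) (by positivity)
    have h8 : ∑ j, 2 * |y j t| * (b * s + (b * n + 1) * δ) =
        2 * s * (b * s + (b * n + 1) * δ) := by
      rw [← Finset.sum_mul, ← Finset.mul_sum]
    rw [h8] at h7
    refine h7.trans ?_
    have h9 : 2 * s * ((b * n + 1) * δ) ≤ s ^ 2 + ((b * n + 1) * δ) ^ 2 := by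
      nlinarith [sq_nonneg (s - (b * n + 1) * δ)]
    have h10 : (2 * b + 1) * s ^ 2 ≤ (2 * b + 1) * (n * Y t) :=
      mul_le_mul_of_nonneg_left hsY (by linarith)
    have h11 : 0 ≤ (b * n + 1) ^ 2 * Y t := by positivity
    have h12 : 0 ≤ (2 * b + 1) * n * δ ^ 2 := by positivity
    rw [hK]
    nlinarith
  have hY0 : Y 0 ≤ n * δ ^ 2 := by
    have h1 : ∀ j, (y j 0) ^ 2 ≤ δ ^ 2 := by
      intro j
      have h0 : (0 : ℝ) ∈ Icc (0 : ℝ) θ := ⟨le_refl _, hθ⟩
      have h2 : y j 0 = -(τ j * H (σ j) 0 / S) := by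
        change v j 0 - τ j * H (σ j) 0 / S = _
        rw [hv0]; ring
      have h3 : |y j 0| ≤ δ := by
        rw [h2, abs_neg, abs_div, abs_of_pos hSpos, abs_mul]
        have h4 : |τ j| * |H (σ j) 0| / S ≤ h / S := by
          apply div_le_div_of_nonneg_right _ hSpos.le
          calc |τ j| * |H (σ j) 0| ≤ 1 * h :=
                mul_le_mul (hτ1 j) (hHb (σ j) 0 h0).1 (abs_nonneg _) zero_le_one
            _ = h := one_mul h
        linarith
      rw [← sq_abs]
      exact pow_le_pow_left₀ (abs_nonneg _) h3 2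
    calc Y 0 ≤ ∑ _j : ι, δ ^ 2 := Finset.sum_le_sum (fun j _ => h1 j)
      _ = (Fintype.card ι : ℝ) * δ ^ 2 := by
          rw [Finset.sum_const, nsmul_eq_mul, Finset.card_univ]
      _ ≤ n * δ ^ 2 := mul_le_mul_of_nonneg_right hcard' (sq_nonneg _)
  -- Gronwall
  let g : ℝ → ℝ := fun t => Real.exp (-K * t) * (Y t + δ ^ 2)
  have hgd : ∀ t ∈ Icc (0 : ℝ) θ, HasDerivWithinAt g
      (Real.exp (-K * t) * (-K) * (Y t + δ ^ 2) + Real.exp (-K * t) *
        (∑ j, 2 * y j t * (S * τ j * y (σ j) t + (E j t - τ j * H' (σ j) t / S)))) (Icc 0 θ) t := by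
    intro t ht
    have h1 : HasDerivWithinAt (fun t : ℝ => Real.exp (-K * t)) (Real.exp (-K * t) * (-K))
        (Icc 0 θ) t := by
      have h2 : HasDerivWithinAt (fun t : ℝ => -K * t) (-K) (Icc 0 θ) t := by
        simpa using (hasDerivWithinAt_id t (Icc 0 θ)).const_mul (-K)
      exact h2.exp
    exact h1.mul ((hYd t ht).add_const (δ ^ 2))
  have hganti : AntitoneOn g (Icc 0 θ) := by
    apply antitoneOn_of_deriv_nonpos (convex_Icc 0 θ)
    · exact fun t ht => (hgd t ht).continuousWithinAt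
    · intro t ht
      rw [interior_Icc] at ht ⊢
      exact ((hgd t (Ioo_subset_Icc_self ht)).hasDerivAt
        (Icc_mem_nhds ht.1 ht.2)).differentiableAt.differentiableWithinAt
    · intro t ht
      rw [interior_Icc] at ht
      have ht' := Ioo_subset_Icc_self ht
      rw [((hgd t ht').hasDerivAt (Icc_mem_nhds ht.1 ht.2)).deriv]
      have h1 := hYb t ht'
      have h2 : 0 < Real.exp (-K * t) := Real.exp_pos _
      nlinarith
  intro j t ht
  have h0 : (0 : ℝ) ∈ Icc (0 : ℝ) θ := ⟨le_refl _, hθ⟩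
  have h1 := hganti h0 ht ht.1
  have h2 : Real.exp (-K * t) * (Y t + δ ^ 2) ≤ Y 0 + δ ^ 2 := by
    have : g 0 = Y 0 + δ ^ 2 := by
      change Real.exp (-K * 0) * (Y 0 + δ ^ 2) = _
      rw [mul_zero, Real.exp_zero, one_mul]
    rw [← this]; exact h1
  have h3 : Y t + δ ^ 2 ≤ Real.exp (60 * K) * ((n + 1) * δ ^ 2) := by
    have h4 : Y t + δ ^ 2 = Real.exp (K * t) * (Real.exp (-K * t) * (Y t + δ ^ 2)) := by
      rw [← mul_assoc, ← Real.exp_add]
      rw [show K * t + -K * t = 0 by ring, Real.exp_zero, one_mul]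
    have hYt : 0 ≤ Y t + δ ^ 2 :=
      add_nonneg (Finset.sum_nonneg (fun j _ => sq_nonneg _)) (sq_nonneg _)
    rw [h4]
    apply mul_le_mul
    · apply Real.exp_le_exp.2
      have h5 := ht.2
      nlinarith
    · linarith
    · positivity
    · positivity
  have h5 : (y j t) ^ 2 ≤ Y t :=
    Finset.single_le_sum (f := fun j => (y j t) ^ 2) (fun j _ => sq_nonneg _) (Finset.mem_univ j)
  have h6 : |y j t| ≤ (n + 1) * Real.exp (60 * K) * δ := by
    apply abs_le_of_sq_le_sq
    · have h7 : 1 ≤ (n + 1 : ℝ) * Real.exp (60 * K) := by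
        have h8 : 1 ≤ Real.exp (60 * K) := Real.one_le_exp (by positivity)
        exact one_le_mul_of_one_le_of_one_le (by linarith) h8
      have h9 : (n + 1 : ℝ) * Real.exp (60 * K) * δ ^ 2 ≤
          ((n + 1) * Real.exp (60 * K)) ^ 2 * δ ^ 2 := by
        apply mul_le_mul_of_nonneg_right _ (sq_nonneg _)
        rw [sq]
        exact le_mul_of_one_le_left (by linarith) h7
      have h10 : Real.exp (60 * K) * ((n + 1) * δ ^ 2) = (n + 1) * Real.exp (60 * K) * δ ^ 2 := by
        ring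
      have h11 : 0 ≤ δ ^ 2 := sq_nonneg δ
      rw [mul_pow]
      linarith
    · positivity
  have h7 := hvy j t ht
  have h8 : h / S ≤ δ := by rw [hδ]; linarith
  calc |v j t| ≤ |y j t| + h / S := h7
    _ ≤ (n + 1) * Real.exp (60 * K) * δ + δ := by linarith
    _ = _ := by rw [hδ]; ring

end Pool.Agent.Y43.EK.AVG
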