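import Pool.Agent.Y6.K.Stm

/-! Job EK-CJ3 of helper6: linear algebra of odd tangential families. -/

set_option autoImplicit false

namespace Pool.Agent.Y43.EK.CJ3

open Pool.Agent.Y5 Pool.Agent.Y5.D

theorem vec_ne {k : Z3} (hk : k ≠ 0) : vec k ≠ 0 := by
  intro h
  apply hk
  funext i
  have := congrArg (fun v : E3 => v i) h
  simpa [vec] using this

theorem part1 : ∀ k : Z3, k ≠ 0 → ∃ b : Bool → E3,
    (∀ i j, inner ℝ (b i) (b j) = if i = j then (1 : ℝ) else 0) ∧
    (∀ i, inner ℝ (vec k) (b i) = (0 : ℝ)) ∧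
    ∀ v : E3, inner ℝ (vec k) v = (0 : ℝ) → v = ∑ i, (inner ℝ v (b i) : ℝ) • b i := by
  intro k hk
  have hf : Module.finrank ℝ (Submodule.span ℝ {vec k})ᗮ = 2 := by
    have : Fact (Module.finrank ℝ E3 = 2 + 1) := ⟨by simp⟩
    exact Submodule.finrank_orthogonal_span_singleton (vec_ne hk)
  let B : OrthonormalBasis Bool ℝ (Submodule.span ℝ {vec k})ᗮ :=
    (stdOrthonormalBasis ℝ _).reindex ((finCongr hf).trans finTwoEquiv)
  refine ⟨fun i => (B i : E3), ?_, ?_, ?_⟩
  · intro i j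
    have := (orthonormal_iff_ite.1 B.orthonormal) i j
    rw [Submodule.coe_inner] at this
    exact this
  · intro i
    exact (Submodule.mem_orthogonal_singleton_iff_inner_right).1 (B i).2
  · intro v hv
    have hv' : v ∈ (Submodule.span ℝ {vec k})ᗮ :=
      (Submodule.mem_orthogonal_singleton_iff_inner_right).2 hv
    have h1 := B.sum_repr' ⟨v, hv'⟩
    have h2 := congrArg (fun w : (Submodule.span ℝ {vec k})ᗮ => (w : E3)) h1
    simp only [Submodule.coe_inner] at h2
    rw [Submodule.coe_sum] at h2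
    simp only [Submodule.coe_smul] at h2
    conv_lhs => rw [← h2]
    apply Finset.sum_congr rfl
    intro i _
    rw [real_inner_comm]

/-- half of the nonzero frequencies -/
def pos (k : Z3) : Prop := 0 < k 0 ∨ (k 0 = 0 ∧ 0 < k 1) ∨ (k 0 = 0 ∧ k 1 = 0 ∧ 0 < k 2)

theorem pos_or {k : Z3} (hk : k ≠ 0) : pos k ∨ pos (-k) := by
  unfold pos
  by_contra h
  apply hk
  push Not at h
  simp only [Pi.neg_apply] at h
  funext i
  have h0 : k 0 = 0 := by omega
  have h1 : k 1 = 0 := by omega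
  have h2 : k 2 = 0 := by omega
  fin_cases i
  · exact h0
  · exact h1
  · exact h2

theorem not_pos_neg {k : Z3} (h : pos k) : ¬ pos (-k) := by
  unfold pos at *
  simp only [Pi.neg_apply]
  omega

section

variable (s : Finset Z3) (hs : ∀ k ∈ s, -k ∈ s)

/-- odd tangential families on `s` -/
def W : Submodule ℝ (PiLp 2 (fun _ : s => E3)) where
  carrier := {x | ∀ k : s, x ⟨-k.1, hs k.1 k.2⟩ = -x k ∧ inner ℝ (vec k.1) (x k) = (0 : ℝ)}
  add_mem' := by
    intro x y hx hy k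
    refine ⟨?_, ?_⟩
    · rw [PiLp.add_apply, PiLp.add_apply, (hx k).1, (hy k).1]; abel
    · rw [PiLp.add_apply, inner_add_right, (hx k).2, (hy k).2, add_zero]
  zero_mem' := by
    intro k
    refine ⟨?_, ?_⟩
    · rw [PiLp.zero_apply, PiLp.zero_apply, neg_zero]
    · rw [PiLp.zero_apply, inner_zero_right]
  smul_mem' := by
    intro c x hx k
    refine ⟨?_, ?_⟩
    · rw [PiLp.smul_apply, PiLp.smul_apply, (hx k).1, smul_neg]
    · rw [PiLp.smul_apply, inner_smul_right, (hx k).2, mul_zero]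

theorem mem_W (x : PiLp 2 (fun _ : s => E3)) : x ∈ W s hs ↔
    ∀ k : s, x ⟨-k.1, hs k.1 k.2⟩ = -x k ∧ inner ℝ (vec k.1) (x k) = (0 : ℝ) := Iff.rfl

open Classical in
/-- the positive half of `s` -/
noncomputable def sp : Finset Z3 := s.filter pos

theorem mem_sp {k : Z3} : k ∈ sp s ↔ k ∈ s ∧ pos k := by
  classical
  unfold sp
  rw [Finset.mem_filter]

include hs in
theorem card_sp (h0 : (0 : Z3) ∉ s) : s.card = 2 * (sp s).card := by
  classical
  have h1 : s = sp s ∪ (sp s).image (fun k => -k) := by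
    ext k
    rw [Finset.mem_union, Finset.mem_image, mem_sp]
    constructor
    · intro hk
      have hk0 : k ≠ 0 := fun h => h0 (h ▸ hk)
      rcases pos_or hk0 with h | h
      · exact Or.inl ⟨hk, h⟩
      · exact Or.inr ⟨-k, (mem_sp s).2 ⟨hs k hk, h⟩, neg_neg k⟩
    · rintro (h | ⟨a, ha, rfl⟩)
      · exact h.1
      · exact hs a ((mem_sp s).1 ha).1
  have h2 : Disjoint (sp s) ((sp s).image (fun k => -k)) := by
    rw [Finset.disjoint_left]
    intro k hk hk'
    obtain ⟨a, ha, rfl⟩ := Finset.mem_image.1 hk'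
    exact not_pos_neg ((mem_sp s).1 ha).2 ((mem_sp s).1 hk).2
  have h3 : ((sp s).image (fun k => -k)).card = (sp s).card :=
    Finset.card_image_of_injective _ neg_injective
  conv_lhs => rw [h1]
  rw [Finset.card_union_of_disjoint h2, h3]; ring

/-- restriction to the positive half -/
noncomputable def res : W s hs →ₗ[ℝ] (∀ k : sp s, (Submodule.span ℝ {vec k.1})ᗮ) where
  toFun x k := ⟨(x : PiLp 2 (fun _ : s => E3)) ⟨k.1, ((mem_sp s).1 k.2).1⟩,
    (Submodule.mem_orthogonal_singleton_iff_inner_right).2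
      (((mem_W s hs _).1 x.2) ⟨k.1, ((mem_sp s).1 k.2).1⟩).2⟩
  map_add' _ _ := rfl
  map_smul' _ _ := rfl

theorem res_inj (h0 : (0 : Z3) ∉ s) : Function.Injective (res s hs) := by
  rw [← LinearMap.ker_eq_bot, LinearMap.ker_eq_bot']
  intro x hx
  have h1 : ∀ k : Z3, ∀ h : k ∈ s, pos k → (x : PiLp 2 (fun _ : s => E3)) ⟨k, h⟩ = 0 := by
    intro k h hp
    have := congrFun hx ⟨k, (mem_sp s).2 ⟨h, hp⟩⟩
    exact congrArg (fun w : (Submodule.span ℝ {vec k})ᗮ => (w : E3)) this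
  apply Subtype.ext
  ext1 i
  obtain ⟨k, hk⟩ := i
  have hk0 : k ≠ 0 := fun h => h0 (h ▸ hk)
  rcases pos_or hk0 with h | h
  · exact h1 k hk h
  · have h2 := h1 (-k) (hs k hk) h
    have h3 := (((mem_W s hs _).1 x.2) ⟨k, hk⟩).1
    rw [h2] at h3
    exact neg_eq_zero.1 h3.symm

open Classical in
/-- the odd extension of a family on the positive half -/
noncomputable def exf (y : ∀ k : sp s, (Submodule.span ℝ {vec k.1})ᗮ) (k : Z3) : E3 :=
  if h : k ∈ sp s then (y ⟨k, h⟩ : E3) else if h : -k ∈ sp s then -(y ⟨-k, h⟩ : E3) else 0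

theorem exf_pos (y : ∀ k : sp s, (Submodule.span ℝ {vec k.1})ᗮ) {k : Z3} (h : k ∈ sp s) :
    exf s y k = (y ⟨k, h⟩ : E3) := by
  unfold exf; rw [dif_pos h]

theorem exf_neg (y : ∀ k : sp s, (Submodule.span ℝ {vec k.1})ᗮ) (k : Z3) :
    exf s y (-k) = -exf s y k := by
  by_cases h : k ∈ sp s
  · have h1 : -k ∉ sp s := fun h2 => not_pos_neg ((mem_sp s).1 h).2 ((mem_sp s).1 h2).2
    have h2 : -(-k) ∈ sp s := by rwa [neg_neg]
    rw [exf_pos s y h]
    unfold exf
    rw [dif_neg h1, dif_pos h2]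
    have h3 : (⟨- -k, h2⟩ : sp s) = ⟨k, h⟩ := Subtype.ext (neg_neg k)
    have h4 := congrArg (fun q : sp s => (y q : E3)) h3
    simp only at h4
    rw [h4]
  · by_cases h1 : -k ∈ sp s
    · rw [exf_pos s y h1]
      unfold exf
      rw [dif_neg h, dif_pos h1, neg_neg]
    · have h2 : -(-k) ∉ sp s := by rwa [neg_neg]
      unfold exf
      simp only [dif_neg h, dif_neg h1, dif_neg h2, neg_zero]

theorem vec_neg (k : Z3) : vec (-k) = -vec k := by
  unfold vec
  ext i
  simp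

theorem exf_tan (y : ∀ k : sp s, (Submodule.span ℝ {vec k.1})ᗮ) (k : Z3) :
    inner ℝ (vec k) (exf s y k) = (0 : ℝ) := by
  by_cases h : k ∈ sp s
  · rw [exf_pos s y h]
    exact (Submodule.mem_orthogonal_singleton_iff_inner_right).1 (y ⟨k, h⟩).2
  · by_cases h1 : -k ∈ sp s
    · have h2 : exf s y k = -exf s y (-k) := by rw [exf_neg, neg_neg]
      have h3 : vec k = -vec (-k) := by rw [vec_neg, neg_neg]
      rw [h2, h3, inner_neg_neg, exf_pos s y h1]
      exact (Submodule.mem_orthogonal_singleton_iff_inner_right).1 (y ⟨-k, h1⟩).2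
    · unfold exf
      rw [dif_neg h, dif_neg h1, inner_zero_right]

theorem res_surj : Function.Surjective (res s hs) := by
  intro y
  refine ⟨⟨WithLp.toLp 2 (fun k : s => exf s y k.1), ?_⟩, ?_⟩
  · rw [mem_W]
    intro k
    exact ⟨exf_neg s y k.1, exf_tan s y k.1⟩
  · funext k
    apply Subtype.ext
    exact exf_pos s y k.2

theorem finrank_W (h0 : (0 : Z3) ∉ s) (hc : s.card = 24) : Module.finrank ℝ (W s hs) = 24 := by
  rw [(LinearEquiv.ofBijective (res s hs) ⟨res_inj s hs h0, res_surj s hs⟩).finrank_eq]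
  rw [Module.finrank_pi_fintype]
  have h1 : ∀ k : sp s, Module.finrank ℝ (Submodule.span ℝ {vec k.1})ᗮ = 2 := by
    intro k
    have : Fact (Module.finrank ℝ E3 = 2 + 1) := ⟨by simp⟩
    refine Submodule.finrank_orthogonal_span_singleton (vec_ne ?_)
    intro h
    exact h0 (h ▸ ((mem_sp s).1 k.2).1)
  rw [Finset.sum_congr rfl (fun k _ => h1 k), Finset.sum_const, Finset.card_univ,
    Fintype.card_coe, smul_eq_mul]
  have := card_sp s hs h0
  omega

/-- restriction of a family -/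
noncomputable def rs (V : Fam) (hV : OT V) : W s hs :=
  ⟨WithLp.toLp 2 (fun k : s => V k.1), by
    rw [mem_W]
    intro k
    exact ⟨hV.odd k.1, hV.tan k.1⟩⟩

open Classical in
/-- extension of a family -/
noncomputable def ext0 (w : W s hs) (k : Z3) : E3 :=
  if h : k ∈ s then (w : PiLp 2 (fun _ : s => E3)) ⟨k, h⟩ else 0

theorem ext0_mem (w : W s hs) {k : Z3} (h : k ∈ s) :
    ext0 s hs w k = (w : PiLp 2 (fun _ : s => E3)) ⟨k, h⟩ := by
  unfold ext0; rw [dif_pos h]

theorem ext0_not (w : W s hs) {k : Z3} (h : k ∉ s) : ext0 s hs w k = 0 := by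
  unfold ext0; rw [dif_neg h]

theorem ext0_OT (w : W s hs) : OT (ext0 s hs w) where
  odd k := by
    by_cases h : k ∈ s
    · rw [ext0_mem s hs w h, ext0_mem s hs w (hs k h)]
      exact (((mem_W s hs _).1 w.2) ⟨k, h⟩).1
    · have h1 : -k ∉ s := fun h1 => h (by simpa using hs _ h1)
      rw [ext0_not s hs w h, ext0_not s hs w h1, neg_zero]
  tan k := by
    by_cases h : k ∈ s
    · rw [ext0_mem s hs w h]
      exact (((mem_W s hs _).1 w.2) ⟨k, h⟩).2
    · rw [ext0_not s hs w h, inner_zero_right]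

theorem pair_eq (V V' : Fam) (h : ∀ k ∉ s, V' k = 0) :
    pair V V' = ∑ k : s, inner ℝ (V k.1) (V' k.1) := by
  unfold pair
  rw [tsum_eq_sum (s := s) (fun k hk => by rw [h k hk, inner_zero_right])]
  exact (Finset.sum_coe_sort s (fun k => (inner ℝ (V k) (V' k) : ℝ))).symm

theorem inner_W (x y : W s hs) : (inner ℝ x y : ℝ) =
    ∑ k : s, inner ℝ ((x : PiLp 2 (fun _ : s => E3)) k) ((y : PiLp 2 (fun _ : s => E3)) k) := by
  rw [Submodule.coe_inner, PiLp.inner_apply]

end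

theorem part2 (s : Finset Z3) (E Y : Fam) (hc : s.card = 24) (hs : ∀ k ∈ s, -k ∈ s)
    (h0 : (0 : Z3) ∉ s) (hE : OT E) (hY : OT Y) (hz : ∀ k ∉ s, E k = 0 ∧ Y k = 0)
    (hEE : pair E E = 1) (hYY : pair Y Y = 1) (hEY : pair E Y = 0) :
    ∃ f : Fin 11 × Bool → Fam, (∀ j, OT (f j)) ∧ (∀ j, ∀ k ∉ s, f j k = 0) ∧
      (∀ i j, pair (f i) (f j) = if i = j then 1 else 0) ∧
      (∀ j, pair (f j) E = 0 ∧ pair (f j) Y = 0) ∧
      ∀ V, OT V → ∀ k ∈ s,
        V k = pair V E • E k + pair V Y • Y k + ∑ j, pair V (f j) • f j k := by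
  classical
  have hEY' : pair Y E = 0 := by
    rw [← hEY]
    unfold pair
    congr 1
    funext k
    exact real_inner_comm _ _
  let v : (Fin 11 × Bool) ⊕ Bool → W s hs := fun i =>
    match i with
    | Sum.inl _ => 0
    | Sum.inr true => rs s hs E hE
    | Sum.inr false => rs s hs Y hY
  have hrE : ∀ V hV, (inner ℝ (rs s hs V hV) (rs s hs E hE) : ℝ) = pair V E := by
    intro V hV
    rw [inner_W, pair_eq s V E (fun k hk => (hz k hk).1)]
    rfl
  have hrY : ∀ V hV, (inner ℝ (rs s hs V hV) (rs s hs Y hY) : ℝ) = pair V Y := by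
    intro V hV
    rw [inner_W, pair_eq s V Y (fun k hk => (hz k hk).2)]
    rfl
  have hv : Orthonormal ℝ ((Set.range (Sum.inr : Bool → (Fin 11 × Bool) ⊕ Bool)).domRestrict v) := by
    rw [orthonormal_iff_ite]
    rintro ⟨_, a, rfl⟩ ⟨_, b, rfl⟩
    have hite : ((⟨Sum.inr a, ⟨a, rfl⟩⟩ :
        Set.range (Sum.inr : Bool → (Fin 11 × Bool) ⊕ Bool)) = ⟨Sum.inr b, ⟨b, rfl⟩⟩) ↔ a = b := by
      constructor
      · intro h
        exact Sum.inr_injective (congrArg Subtype.val h)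
      · rintro rfl
        rfl
    simp only [hite]
    change (inner ℝ (v (Sum.inr a)) (v (Sum.inr b)) : ℝ) = _
    cases a <;> cases b
    · change (inner ℝ (rs s hs Y hY) (rs s hs Y hY) : ℝ) = _
      rw [hrY, hYY]; simp
    · change (inner ℝ (rs s hs Y hY) (rs s hs E hE) : ℝ) = _
      rw [hrE, hEY']; simp
    · change (inner ℝ (rs s hs E hE) (rs s hs Y hY) : ℝ) = _
      rw [hrY, hEY]; simp
    · change (inner ℝ (rs s hs E hE) (rs s hs E hE) : ℝ) = _
      rw [hrE, hEE]; simp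
  have hcard : Module.finrank ℝ (W s hs) = Fintype.card ((Fin 11 × Bool) ⊕ Bool) := by
    rw [finrank_W s hs h0 hc]
    simp
  obtain ⟨b, hb⟩ := hv.exists_orthonormalBasis_extension_of_card_eq hcard
  have hbE : b (Sum.inr true) = rs s hs E hE := hb _ ⟨true, rfl⟩
  have hbY : b (Sum.inr false) = rs s hs Y hY := hb _ ⟨false, rfl⟩
  have hon := orthonormal_iff_ite.1 b.orthonormal
  have hpf : ∀ V hV j, pair V (ext0 s hs (b (Sum.inl j))) =
      (inner ℝ (rs s hs V hV) (b (Sum.inl j)) : ℝ) := by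
    intro V hV j
    rw [inner_W, pair_eq s V _ (fun k hk => ext0_not s hs _ hk)]
    apply Finset.sum_congr rfl
    intro k _
    rw [ext0_mem s hs _ k.2]
    rfl
  have hrx : ∀ w : W s hs, rs s hs (ext0 s hs w) (ext0_OT s hs w) = w := by
    intro w
    apply Subtype.ext
    ext1 k
    exact ext0_mem s hs w k.2
  refine ⟨fun j => ext0 s hs (b (Sum.inl j)), fun j => ext0_OT s hs _,
    fun j k hk => ext0_not s hs _ hk, ?_, ?_, ?_⟩
  · intro i j
    rw [hpf _ (ext0_OT s hs _) j, hrx, hon]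
    simp
  · intro j
    constructor
    · rw [← hrE _ (ext0_OT s hs _), hrx, ← hbE, hon]
      simp
    · rw [← hrY _ (ext0_OT s hs _), hrx, ← hbY, hon]
      simp
  · intro V hV k hk
    have h1 := b.sum_repr' (rs s hs V hV)
    rw [Fintype.sum_sum_type, Fintype.sum_bool, hbE, hbY] at h1
    have h2 := congrArg (fun w : W s hs => (w : PiLp 2 (fun _ : s => E3)) ⟨k, hk⟩) h1
    simp only [Submodule.coe_add, Submodule.coe_sum, Submodule.coe_smul] at h2
    rw [PiLp.add_apply, PiLp.add_apply] at h2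
    have h3 : (rs s hs V hV : PiLp 2 (fun _ : s => E3)) ⟨k, hk⟩ = V k := rfl
    have h4 : (rs s hs E hE : PiLp 2 (fun _ : s => E3)) ⟨k, hk⟩ = E k := rfl
    have h5 : (rs s hs Y hY : PiLp 2 (fun _ : s => E3)) ⟨k, hk⟩ = Y k := rfl
    rw [h3, PiLp.smul_apply, PiLp.smul_apply, h4, h5] at h2
    rw [real_inner_comm (rs s hs V hV) (rs s hs E hE), real_inner_comm (rs s hs V hV) (rs s hs Y hY),
      hrE, hrY] at h2
    have h6 : (∑ x, (inner ℝ (b (Sum.inl x)) (rs s hs V hV) : ℝ) •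
        (b (Sum.inl x) : PiLp 2 (fun _ : s => E3))) ⟨k, hk⟩ =
        ∑ j, pair V (ext0 s hs (b (Sum.inl j))) • ext0 s hs (b (Sum.inl j)) k := by
      have h7 : (∑ x, (inner ℝ (b (Sum.inl x)) (rs s hs V hV) : ℝ) •
        (b (Sum.inl x) : PiLp 2 (fun _ : s => E3))) ⟨k, hk⟩ =
        ∑ x, ((inner ℝ (b (Sum.inl x)) (rs s hs V hV) : ℝ) •
        (b (Sum.inl x) : PiLp 2 (fun _ : s => E3))) ⟨k, hk⟩ := by
        simp
      rw [h7]
      apply Finset.sum_congr rfl
      intro j _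
      rw [PiLp.smul_apply, hpf V hV j, real_inner_comm, ext0_mem s hs _ hk]
    rw [h6] at h2
    rw [← h2]
    abel

theorem t_CJ3 : Pool.Agent.Y6.K.S_CJ3 :=
  ⟨part1, fun s E Y hc hs h0 hE hY hz hEE hYY hEY => part2 s E Y hc hs h0 hE hY hz hEE hYY hEY⟩

end Pool.Agent.Y43.EK.CJ3
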